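import Pool.Agent.H305R3.Pinch.Main

/-!
# Pointwise second-order smoothness at one point of the norm and of the dual norm
-/

set_option autoImplicit false
set_option linter.unusedVariables false

namespace Pool.H305R3.Pinch

/-- in every direction `v` the second difference `|x + t v| + |x - t v| - 2 |x|` is `O(t ^ 2)` as
`t` tends to zero, with a constant and a range of `t` depending on `v` -/
def SmoothAt (F : Type) [NormedAddCommGroup F] [NormedSpace ℝ F] (x : F) : Prop :=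
  ∀ v : F, ∃ C δ : ℝ, 0 < δ ∧ ∀ t : ℝ, 0 < t → t < δ →
    ‖x + t • v‖ + ‖x - t • v‖ ≤ 2 * ‖x‖ + C * t ^ 2

section

variable {F : Type} [NormedAddCommGroup F] [NormedSpace ℝ F]

/-- second difference of the squared norm -/
def D2 (x w : F) : ℝ := ‖x + w‖ ^ 2 + ‖x - w‖ ^ 2 - 2 * ‖x‖ ^ 2

theorem D2_neg (x w : F) : D2 x (-w) = D2 x w := by
  unfold D2
  rw [← sub_eq_add_neg, sub_neg_eq_add]; ring

theorem D2_mid (x a b : F) : D2 x ((1 / 2 : ℝ) • (a + b)) ≤ (D2 x a + D2 x b) / 2 := by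
  have e1 : x + (1 / 2 : ℝ) • (a + b) = (1 / 2 : ℝ) • (x + a) + (1 / 2 : ℝ) • (x + b) := by
    module
  have e2 : x - (1 / 2 : ℝ) • (a + b) = (1 / 2 : ℝ) • (x - a) + (1 / 2 : ℝ) • (x - b) := by
    module
  have hn : ∀ p q : F, ‖(1 / 2 : ℝ) • p + (1 / 2 : ℝ) • q‖ ^ 2 ≤ (‖p‖ ^ 2 + ‖q‖ ^ 2) / 2 := by
    intro p q
    have h1 : ‖(1 / 2 : ℝ) • p + (1 / 2 : ℝ) • q‖ ≤ (‖p‖ + ‖q‖) / 2 := by
      refine (norm_add_le _ _).trans (le_of_eq ?_)
      rw [norm_smul, norm_smul, Real.norm_of_nonneg (by norm_num : (0:ℝ) ≤ 1 / 2)]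
      ring
    have h2 := pow_le_pow_left₀ (norm_nonneg _) h1 2
    nlinarith [sq_nonneg (‖p‖ - ‖q‖)]
  unfold D2
  rw [e1, e2]
  have := hn (x + a) (x + b)
  have := hn (x - a) (x - b)
  linarith

theorem D2_cont (x : F) (t : ℝ) : Continuous (fun v : F => D2 x (t • v)) := by
  unfold D2; fun_prop

/-- pointwise bound for the squared norm -/
theorem sq_of_smoothAt {x : F} (h : SmoothAt F x) (v : F) :
    ∃ C δ : ℝ, 0 < δ ∧ ∀ t : ℝ, 0 < t → t < δ → D2 x (t • v) ≤ C * t ^ 2 := by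
  obtain ⟨C, δ, hδ, hC⟩ := h v
  refine ⟨2 * ‖x‖ * |C| + |C| ^ 2 + 2 * ‖v‖ ^ 2, min δ 1, lt_min hδ one_pos, fun t ht0 ht1 => ?_⟩
  have ht2 : t < δ := lt_of_lt_of_le ht1 (min_le_left _ _)
  have ht3 : t < 1 := lt_of_lt_of_le ht1 (min_le_right _ _)
  have h1 := hC t ht0 ht2
  have h2 : C * t ^ 2 ≤ |C| * t ^ 2 := mul_le_mul_of_nonneg_right (le_abs_self C) (by positivity)
  set a := ‖x + t • v‖ with ha
  set b := ‖x - t • v‖ with hb
  have ha0 : 0 ≤ a := norm_nonneg _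
  have hb0 : 0 ≤ b := norm_nonneg _
  have h3 : |a - b| ≤ 2 * t * ‖v‖ := by
    have : |a - b| ≤ ‖(x + t • v) - (x - t • v)‖ := abs_norm_sub_norm_le _ _
    refine this.trans (le_of_eq ?_)
    have e : (x + t • v) - (x - t • v) = (2 * t) • v := by module
    rw [e, norm_smul, Real.norm_of_nonneg (by positivity)]
  have h4 : (a - b) ^ 2 ≤ (2 * t * ‖v‖) ^ 2 := sq_le_sq' (by linarith [neg_le_of_abs_le h3]) (le_of_abs_le h3)
  have h5 : (a + b) ^ 2 ≤ (2 * ‖x‖ + |C| * t ^ 2) ^ 2 :=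
    pow_le_pow_left₀ (by linarith) (by linarith) 2
  have h6 : (|C| * t ^ 2) ^ 2 ≤ |C| ^ 2 * t ^ 2 := by
    have : t ^ 2 ≤ 1 := by nlinarith
    have h7 : (t ^ 2) ^ 2 ≤ t ^ 2 := by nlinarith [sq_nonneg t]
    rw [mul_pow]
    exact mul_le_mul_of_nonneg_left h7 (by positivity)
  have h8 : 0 ≤ |C| ^ 2 * t ^ 2 := by positivity
  show a ^ 2 + b ^ 2 - 2 * ‖x‖ ^ 2 ≤ _
  nlinarith

/-- Baire category: the pointwise bound is uniform -/
theorem baire [CompleteSpace F] {x : F} (h : SmoothAt F x) :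
    ∃ K r : ℝ, 0 < K ∧ 0 < r ∧ ∀ w : F, ‖w‖ ≤ r → D2 x w ≤ K * ‖w‖ ^ 2 := by
  set A : ℕ → Set F := fun n => {v : F | ∀ t : ℝ, 0 < t → t ≤ 1 / ((n : ℝ) + 1) →
    D2 x (t • v) ≤ ((n : ℝ) + 1) * t ^ 2} with hA
  have hcl : ∀ n, IsClosed (A n) := by
    intro n
    have : A n = ⋂ (t : ℝ) (_ : 0 < t) (_ : t ≤ 1 / ((n : ℝ) + 1)),
        {v : F | D2 x (t • v) ≤ ((n : ℝ) + 1) * t ^ 2} := by
      ext v; simp [hA]
    rw [this]
    refine isClosed_iInter fun t => isClosed_iInter fun _ => isClosed_iInter fun _ => ?_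
    exact isClosed_le (D2_cont x t) continuous_const
  have hun : ⋃ n, A n = Set.univ := by
    refine Set.eq_univ_of_forall fun v => ?_
    obtain ⟨C, δ, hδ, hC⟩ := sq_of_smoothAt h v
    obtain ⟨n, hn⟩ := exists_nat_gt (max C (1 / δ))
    have hn1 : C < n := lt_of_le_of_lt (le_max_left _ _) hn
    have hn2 : 1 / δ < n := lt_of_le_of_lt (le_max_right _ _) hn
    have hn3 : (0 : ℝ) < n := lt_trans (by positivity) hn2
    refine Set.mem_iUnion.2 ⟨n, fun t ht0 ht1 => ?_⟩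
    have h1 : t < δ := by
      refine lt_of_le_of_lt ht1 ?_
      rw [div_lt_iff₀ (by positivity)]
      rw [div_lt_iff₀ hδ] at hn2
      nlinarith
    have h2 : 0 < t ^ 2 := by positivity
    have h3 := hC t ht0 h1
    nlinarith
  obtain ⟨n, v0, hv0⟩ := nonempty_interior_of_iUnion_of_closed hcl hun
  obtain ⟨ρ, hρ, hball⟩ := Metric.isOpen_iff.1 isOpen_interior v0 hv0
  have hmem : ∀ w : F, ‖w‖ < ρ → v0 + w ∈ A n := by
    intro w hw
    refine interior_subset (hball ?_)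
    rw [mem_ball_iff_norm, add_sub_cancel_left]; exact hw
  have key : ∀ w : F, ‖w‖ < ρ → ∀ t : ℝ, 0 < t → t ≤ 1 / ((n : ℝ) + 1) →
      D2 x (t • w) ≤ ((n : ℝ) + 1) * t ^ 2 := by
    intro w hw t ht0 ht1
    have h1 := hmem w hw t ht0 ht1
    have h2 := hmem (-w) (by rwa [norm_neg]) t ht0 ht1
    have h3 := D2_mid x (t • (v0 + w)) (-(t • (v0 + -w)))
    rw [D2_neg] at h3
    have e : (1 / 2 : ℝ) • (t • (v0 + w) + -(t • (v0 + -w))) = t • w := by module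
    rw [e] at h3
    linarith
  refine ⟨4 * ((n : ℝ) + 1) / ρ ^ 2, ρ / (2 * ((n : ℝ) + 1)), by positivity, by positivity,
    fun u hu => ?_⟩
  rcases eq_or_ne u 0 with rfl | hu0
  · simp [D2]; linarith [sq_nonneg ‖x‖]
  · have hu1 : 0 < ‖u‖ := norm_pos_iff.2 hu0
    have ht : 0 < 2 * ‖u‖ / ρ := by positivity
    have h1 := key ((2 * ‖u‖ / ρ)⁻¹ • u) (by
      rw [norm_smul, norm_inv, Real.norm_of_nonneg ht.le]
      field_simp
      linarith) (2 * ‖u‖ / ρ) ht (by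
        rw [div_le_div_iff₀ hρ (by positivity)]
        rw [le_div_iff₀ (by positivity)] at hu
        linarith)
    rw [smul_smul, mul_inv_cancel₀ ht.ne', one_smul] at h1
    refine h1.trans (le_of_eq ?_)
    field_simp
    ring

end

end Pool.H305R3.Pinch
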