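import Pool.Agent.H755R2.MT.Hilbert

/-!
# Second-order pinching at one point of a transitive norm: the averaged form
-/

set_option autoImplicit false
set_option linter.unusedSectionVars false
set_option linter.unusedVariables false

namespace Pool.H305R3.Pinch

open Gardner Pool.H755R2.MT

/-- an equivalent inner product gives an isomorphism with a Hilbert space -/
theorem hilbert_of_form2 {E : Type} [NormedAddCommGroup E] [NormedSpace ℝ E] [CompleteSpace E]
    (B : E → E → ℝ) {c C : ℝ} (hc : 0 < c) (hC : 0 ≤ C)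
    (hsymm : ∀ u w, B u w = B w u) (hadd : ∀ u v w, B (u + v) w = B u w + B v w)
    (hsmul : ∀ (r : ℝ) u w, B (r • u) w = r * B u w)
    (hlow : ∀ w, c * ‖w‖ ^ 2 ≤ B w w) (hup : ∀ w, B w w ≤ C * ‖w‖ ^ 2) :
    ∃ (H : Type) (instH : NormedAddCommGroup H) (instI : InnerProductSpace ℝ H)
      (instC : CompleteSpace H) (A : E ≃L[ℝ] H),
      ∀ w : E, ‖A w‖ ^ 2 = B w w := by
  let core : InnerProductSpace.Core ℝ (HC E) :=
    { inner := fun u w => B (show E from u) (show E from w)
      conj_inner_symm := fun u w => by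
        show B (show E from w) (show E from u) = B (show E from u) (show E from w)
        exact hsymm _ _
      re_inner_nonneg := fun u => by
        show 0 ≤ B (show E from u) (show E from u)
        exact le_trans (by positivity) (hlow _)
      add_left := fun u v w => hadd _ _ _
      smul_left := fun u w r => hsmul r _ _
      definite := fun u hu => by
        have h1 : c * ‖(show E from u)‖ ^ 2 ≤ 0 := (hlow _).trans (le_of_eq hu)
        have h2 : ‖(show E from u)‖ ^ 2 ≤ 0 := by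
          by_contra hcon
          push Not at hcon
          nlinarith
        have h3 : ‖(show E from u)‖ = 0 := by
          have := sq_nonneg ‖(show E from u)‖
          exact pow_eq_zero_iff (n := 2) (by norm_num) |>.1 (le_antisymm h2 this)
        exact norm_eq_zero.1 h3 }
  letI i1 : NormedAddCommGroup (HC E) := core.toNormedAddCommGroup
  letI i2 : InnerProductSpace ℝ (HC E) := InnerProductSpace.ofCore core.toCore
  have hn : ∀ u : HC E, ‖u‖ ^ 2 = B (show E from u) (show E from u) := by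
    intro u
    rw [← real_inner_self_eq_norm_sq]
    rfl
  let e0 : E ≃ₗ[ℝ] HC E := LinearEquiv.refl ℝ E
  let e : E ≃L[ℝ] HC E := e0.toContinuousLinearEquivOfBounds (Real.sqrt C) (Real.sqrt c)⁻¹
    (fun y => by
      have h1 : ‖e0 y‖ ^ 2 ≤ (Real.sqrt C * ‖y‖) ^ 2 := by
        rw [hn, mul_pow, Real.sq_sqrt hC]
        exact hup y
      exact (abs_le_of_sq_le_sq' h1 (by positivity)).2)
    (fun y => by
      have h1 : (Real.sqrt c * ‖e0.symm y‖) ^ 2 ≤ ‖y‖ ^ 2 := by
        rw [hn, mul_pow, Real.sq_sqrt hc.le]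
        exact hlow _
      have h2 : Real.sqrt c * ‖e0.symm y‖ ≤ ‖y‖ := (abs_le_of_sq_le_sq' h1 (norm_nonneg _)).2
      rw [inv_mul_eq_div, le_div_iff₀ (Real.sqrt_pos.2 hc), mul_comm]
      exact h2)
  have hcomp : CompleteSpace (HC E) := by
    rw [← completeSpace_congr (e := e.toEquiv) e.isUniformEmbedding]
    infer_instance
  exact ⟨HC E, i1, i2, hcomp, e, fun w => hn (e w)⟩


/-- two-sided bounds for the second differences of the squared norm give a Hilbert space: average
the mixed second differences with an invariant mean of the additive group -/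
theorem form_of_bounds {E : Type} [NormedAddCommGroup E] [NormedSpace ℝ E] [CompleteSpace E]
    {c C : ℝ} (hc : 0 < c) (hC0 : 0 ≤ C)
    (hlow : ∀ z w : E, c * ‖w‖ ^ 2 ≤ ‖z + w‖ ^ 2 + ‖z - w‖ ^ 2 - 2 * ‖z‖ ^ 2)
    (hup : ∀ z w : E, ‖z + w‖ ^ 2 + ‖z - w‖ ^ 2 - 2 * ‖z‖ ^ 2 ≤ C * ‖w‖ ^ 2) :
    ∃ B : E → E → ℝ, (∀ u w, B u w = B w u) ∧ (∀ u v w, B (u + v) w = B u w + B v w) ∧
      (∀ (r : ℝ) u w, B (r • u) w = r * B u w) ∧ (∀ w, c * ‖w‖ ^ 2 ≤ B w w) ∧
      (∀ w, B w w ≤ C * ‖w‖ ^ 2) := by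
  obtain ⟨M, hadd, hpos, hone, hbd, hinv⟩ := Gardner.exists_mean E
  have hcst := mean_const M hadd hone hbd
  have hcb : ∀ r : ℝ, Bdd (fun _ : E => r) := fun r => ⟨|r|, fun _ => le_rfl⟩
  set D : E → E → E → ℝ := fun u w z =>
    ‖z + u + w‖ ^ 2 - ‖z + u‖ ^ 2 - ‖z + w‖ ^ 2 + ‖z‖ ^ 2 with hD
  have hDb : ∀ u w z, |D u w z| ≤ C * (‖u‖ + ‖w‖) ^ 2 := by
    intro u w z
    set m : E := z + (1 / 2 : ℝ) • (u + w) with hm
    have e1 : m + (1 / 2 : ℝ) • (u + w) = z + u + w := by
      rw [hm, add_assoc, ← add_smul]; norm_num; abel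
    have e2 : m - (1 / 2 : ℝ) • (u + w) = z := by rw [hm]; abel
    have e3 : m + (1 / 2 : ℝ) • (u - w) = z + u := by
      have : (1 / 2 : ℝ) • (u + w) + (1 / 2 : ℝ) • (u - w) = u := by
        rw [← smul_add]
        have : u + w + (u - w) = (2 : ℝ) • u := by rw [two_smul]; abel
        rw [this, smul_smul]; norm_num
      rw [hm, add_assoc, this]
    have e4 : m - (1 / 2 : ℝ) • (u - w) = z + w := by
      have : (1 / 2 : ℝ) • (u + w) - (1 / 2 : ℝ) • (u - w) = w := by
        rw [← smul_sub]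
        have : u + w - (u - w) = (2 : ℝ) • w := by rw [two_smul]; abel
        rw [this, smul_smul]; norm_num
      rw [hm, add_sub_assoc, this]
    have a1 := hlow m ((1 / 2 : ℝ) • (u + w))
    have a2 := hup m ((1 / 2 : ℝ) • (u + w))
    have a3 := hlow m ((1 / 2 : ℝ) • (u - w))
    have a4 := hup m ((1 / 2 : ℝ) • (u - w))
    rw [e1, e2] at a1 a2
    rw [e3, e4] at a3 a4
    have b1 : ‖(1 / 2 : ℝ) • (u + w)‖ ≤ ‖u‖ + ‖w‖ := by
      rw [norm_smul, Real.norm_of_nonneg (by norm_num)]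
      have := norm_add_le u w
      have := norm_nonneg (u + w)
      linarith
    have b2 : ‖(1 / 2 : ℝ) • (u - w)‖ ≤ ‖u‖ + ‖w‖ := by
      rw [norm_smul, Real.norm_of_nonneg (by norm_num)]
      have := norm_sub_le u w
      have := norm_nonneg (u - w)
      linarith
    have c1 : C * ‖(1 / 2 : ℝ) • (u + w)‖ ^ 2 ≤ C * (‖u‖ + ‖w‖) ^ 2 :=
      mul_le_mul_of_nonneg_left (pow_le_pow_left₀ (norm_nonneg _) b1 2) hC0
    have c2 : C * ‖(1 / 2 : ℝ) • (u - w)‖ ^ 2 ≤ C * (‖u‖ + ‖w‖) ^ 2 :=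
      mul_le_mul_of_nonneg_left (pow_le_pow_left₀ (norm_nonneg _) b2 2) hC0
    have c3 : 0 ≤ c * ‖(1 / 2 : ℝ) • (u + w)‖ ^ 2 := by positivity
    have c4 : 0 ≤ c * ‖(1 / 2 : ℝ) • (u - w)‖ ^ 2 := by positivity
    rw [abs_le]
    simp only [hD]
    constructor <;> linarith
  have hDB : ∀ u w, Bdd (D u w) := fun u w => ⟨_, hDb u w⟩
  set B : E → E → ℝ := fun u w => M (D u w) with hB
  have hBb : ∀ u w, |B u w| ≤ C * (‖u‖ + ‖w‖) ^ 2 := fun u w => hbd _ _ (hDb u w)
  have hBadd : ∀ u v w, B (u + v) w = B u w + B v w := by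
    intro u v w
    have h1 : D (u + v) w = (fun z => D u w (v + z)) + D v w := by
      funext z
      simp only [hD, Pi.add_apply]
      have e1 : z + (u + v) + w = v + z + u + w := by abel
      have e2 : z + (u + v) = v + z + u := by abel
      have e3 : z + v + w = v + z + w := by abel
      have e4 : z + v = v + z := by abel
      rw [e1, e2, e3, e4]
      ring
    show M (D (u + v) w) = M (D u w) + M (D v w)
    rw [h1, hadd _ _ ((hDB u w).tr v) (hDB v w), hinv (D u w) v (hDB u w)]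
  have hBsymm : ∀ u w, B u w = B w u := by
    intro u w
    have h1 : D u w = D w u := by
      funext z
      simp only [hD]
      have e1 : z + u + w = z + w + u := by abel
      rw [e1]
      ring
    show M (D u w) = M (D w u)
    rw [h1]
  have hBsmul : ∀ (r : ℝ) u w, B (r • u) w = r * B u w := by
    intro r u w
    let φ : E →+ ℝ := AddMonoidHom.mk' (fun u => B u w) (fun a b => hBadd a b w)
    have hφ : Continuous φ := by
      refine φ.continuous_of_isBounded_nhds_zero (Metric.ball_mem_nhds (0 : E) one_pos) ?_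
      refine (Metric.isBounded_iff_subset_closedBall 0).2 ⟨C * (1 + ‖w‖) ^ 2, ?_⟩
      rintro _ ⟨a, ha, rfl⟩
      rw [mem_closedBall_zero_iff, Real.norm_eq_abs]
      rw [mem_ball_zero_iff] at ha
      refine (hBb a w).trans (mul_le_mul_of_nonneg_left ?_ hC0)
      exact pow_le_pow_left₀ (by positivity) (by linarith) 2
    exact map_real_smul φ hφ r u
  have hDww : ∀ w z, D w w z = ‖(z + w) + w‖ ^ 2 + ‖(z + w) - w‖ ^ 2 - 2 * ‖z + w‖ ^ 2 := by
    intro w z
    simp only [hD]
    rw [add_sub_cancel_right]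
    ring
  have hBlow : ∀ w, c * ‖w‖ ^ 2 ≤ B w w := by
    intro w
    have h1 : D w w = (fun z => D w w z - c * ‖w‖ ^ 2) + (fun _ => c * ‖w‖ ^ 2) := by
      funext z; simp
    have hb : Bdd (fun z => D w w z - c * ‖w‖ ^ 2) := by
      have := (hDB w w).add' (hcb (-(c * ‖w‖ ^ 2)))
      exact this
    have h2 : 0 ≤ M (fun z => D w w z - c * ‖w‖ ^ 2) := by
      refine hpos _ hb fun z => ?_
      have := hlow (z + w) w
      rw [← hDww] at this
      linarith
    show c * ‖w‖ ^ 2 ≤ M (D w w)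
    rw [h1, hadd _ _ hb (hcb _), hcst]
    linarith
  have hBup : ∀ w, B w w ≤ C * ‖w‖ ^ 2 := by
    intro w
    have hb : Bdd (fun z => C * ‖w‖ ^ 2 - D w w z) := by
      obtain ⟨K, hK⟩ := hDB w w
      refine ⟨|C * ‖w‖ ^ 2| + K, fun z => ?_⟩
      refine (abs_sub _ _).trans ?_
      have := hK z
      linarith
    have h1 : (fun _ : E => C * ‖w‖ ^ 2) = (fun z => C * ‖w‖ ^ 2 - D w w z) + D w w := by
      funext z; simp
    have h2 : 0 ≤ M (fun z => C * ‖w‖ ^ 2 - D w w z) := by
      refine hpos _ hb fun z => ?_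
      have := hup (z + w) w
      rw [← hDww] at this
      linarith
    have h3 := hcst (C * ‖w‖ ^ 2)
    rw [h1, hadd _ _ hb (hDB w w)] at h3
    show M (D w w) ≤ C * ‖w‖ ^ 2
    linarith
  exact ⟨B, hBsymm, hBadd, hBsmul, hBlow, hBup⟩

end Pool.H305R3.Pinch
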