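import Pool.Agent.H305R3.Pinch.Baire

/-!
# Pointwise second-order smoothness of norm and dual norm at one point: both directions
-/

set_option autoImplicit false
set_option linter.unusedVariables false
set_option linter.unusedSectionVars false

namespace Pool.H305R3.Pinch

section Forward

variable {E : Type} [NormedAddCommGroup E] [NormedSpace ℝ E]

theorem upper_of_local {x : E} {K r : ℝ} (hK : 0 < K) (hr : 0 < r)
    (h : ∀ w : E, ‖w‖ ≤ r → D2 x w ≤ K * ‖w‖ ^ 2) : UpperAt E x (K / 2) := by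
  intro v ε hε δ hδ
  have hv : 0 < ‖v‖ + 1 := by positivity
  have ht : 0 < min (δ / 2) (r / (‖v‖ + 1)) := lt_min (by linarith) (by positivity)
  refine ⟨min (δ / 2) (r / (‖v‖ + 1)), ht, lt_of_le_of_lt (min_le_left _ _) (by linarith), ?_⟩
  set t := min (δ / 2) (r / (‖v‖ + 1)) with htd
  have h1 : t ≤ r / (‖v‖ + 1) := min_le_right _ _
  rw [le_div_iff₀ hv] at h1
  have h2 := h (t • v) (by rw [norm_smul, Real.norm_of_nonneg ht.le]; nlinarith)
  rw [norm_smul, Real.norm_of_nonneg ht.le] at h2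
  have h3 : 0 ≤ ε * t ^ 2 := by positivity
  show D2 x (t • v) ≤ _
  nlinarith

theorem lower_of_dual {x : E} (hx : ‖x‖ = 1) {f : StrongDual ℝ E} (hf : ‖f‖ = 1) (hfx : f x = 1)
    {K r : ℝ} (hK : 0 < K) (hr : 0 < r)
    (h : ∀ g : StrongDual ℝ E, ‖g‖ ≤ r → D2 f g ≤ K * ‖g‖ ^ 2) : LowerAt E x (2 / K) := by
  intro v ε hε δ hδ
  have hv : 0 < 2 * (‖v‖ + 1) := by positivity
  have ht : 0 < min (δ / 2) (K * r / (2 * (‖v‖ + 1))) := lt_min (by linarith) (by positivity)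
  refine ⟨min (δ / 2) (K * r / (2 * (‖v‖ + 1))), ht,
    lt_of_le_of_lt (min_le_left _ _) (by linarith), ?_⟩
  set t := min (δ / 2) (K * r / (2 * (‖v‖ + 1))) with htd
  have h1 : t ≤ K * r / (2 * (‖v‖ + 1)) := min_le_right _ _
  rw [le_div_iff₀ hv] at h1
  obtain ⟨g0, hg0, hg0v⟩ := exists_dual_vector'' ℝ v
  have hg0v' : g0 v = ‖v‖ := by simpa using hg0v
  set s : ℝ := 2 * t * ‖v‖ / K with hs
  have hs0 : 0 ≤ s := by positivity
  have hsr : s ≤ r := by
    rw [hs, div_le_iff₀ hK]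
    nlinarith
  have hgn : ‖s • g0‖ ≤ s := by
    rw [norm_smul, Real.norm_of_nonneg hs0]
    nlinarith
  have h2 := h (s • g0) (hgn.trans hsr)
  have h3 : ‖s • g0‖ ^ 2 ≤ s ^ 2 := pow_le_pow_left₀ (norm_nonneg _) hgn 2
  have h4 : D2 f (s • g0) ≤ K * s ^ 2 := h2.trans (mul_le_mul_of_nonneg_left h3 hK.le)
  have h5 : ∀ (a : StrongDual ℝ E) (y : E), a y ≤ (‖a‖ ^ 2 + ‖y‖ ^ 2) / 2 := by
    intro a y
    have := (le_abs_self _).trans (a.le_opNorm y)
    nlinarith [sq_nonneg (‖a‖ - ‖y‖)]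
  have h6 := h5 (f + s • g0) (x + t • v)
  have h7 := h5 (f - s • g0) (x - t • v)
  have e1 : (f + s • g0) (x + t • v) + (f - s • g0) (x - t • v) = 2 + 2 * t * s * ‖v‖ := by
    simp only [ContinuousLinearMap.add_apply, ContinuousLinearMap.sub_apply, map_add, map_sub,
      ContinuousLinearMap.smul_apply, map_smul, smul_eq_mul, hfx, hg0v']
    ring
  have e2 : K * s ^ 2 = 2 * t * s * ‖v‖ := by
    rw [hs]; field_simp
  have e3 : 2 * t * s * ‖v‖ = 2 * (2 / K) * ‖v‖ ^ 2 * t ^ 2 := by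
    rw [hs]; field_simp
    try ring
  unfold D2 at h4
  rw [hf] at h4
  rw [hx]
  have h8 : 0 ≤ ε * t ^ 2 := by positivity
  nlinarith

theorem forward [CompleteSpace E]
    (htr : ∀ x y : E, ‖x‖ = 1 → ‖y‖ = 1 → ∃ T : E ≃ₗᵢ[ℝ] E, T x = y)
    {x : E} (hx : ‖x‖ = 1) {f : StrongDual ℝ E} (hf : ‖f‖ = 1) (hfx : f x = 1)
    (h1 : SmoothAt E x) (h2 : SmoothAt (StrongDual ℝ E) f) :
    ∃ (H : Type) (instH : NormedAddCommGroup H) (instI : InnerProductSpace ℝ H)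
      (instC : CompleteSpace H), Nonempty (E ≃L[ℝ] H) := by
  obtain ⟨K, r, hK, hr, hb⟩ := baire h1
  obtain ⟨K', r', hK', hr', hb'⟩ := baire h2
  have hU := upper_global (upper_all htr hx (upper_of_local hK hr hb))
  have hL := lower_global (lower_all htr hx (lower_of_dual hx hf hfx hK' hr' hb'))
  exact Pool.H755R2.MT.hilbert_of_bounds (c := 2 * (2 / K')) (C := 2 * (K / 2)) (by positivity)
    (by positivity) hL hU

end Forward

section Backward

/-- bound for the second differences of a conjugate function -/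
theorem conj_bound {X Y : Type} [NormedAddCommGroup X] [NormedSpace ℝ X] [NormedAddCommGroup Y]
    [NormedSpace ℝ Y] (b : X → Y → ℝ) (hb : ∀ x y, b x y ≤ ‖x‖ * ‖y‖)
    (hb1 : ∀ x x' y, b (x + x') y = b x y + b x' y) (hb1' : ∀ x x' y, b (x - x') y = b x y - b x' y)
    (hb2 : ∀ x y y', b x (y + y') = b x y + b x y') (hb2' : ∀ x y y', b x (y - y') = b x y - b x y')
    (P : Y → ℝ) {c : ℝ} (hc : 0 < c)
    (hP : ∀ z w, 2 * P z + 2 * c * ‖w‖ ^ 2 ≤ P (z + w) + P (z - w)) (Q : X → ℝ)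
    (hQ : ∀ x, IsLUB (Set.range fun y => b x y - P y) (Q x)) (x h : X) :
    Q (x + h) + Q (x - h) ≤ 2 * Q x + ‖h‖ ^ 2 / (2 * c) := by
  have key : ∀ z1 z2 : Y, (b (x + h) z1 - P z1) + (b (x - h) z2 - P z2) ≤
      2 * Q x + ‖h‖ ^ 2 / (2 * c) := by
    intro z1 z2
    set z : Y := (1 / 2 : ℝ) • (z1 + z2) with hz
    set w : Y := (1 / 2 : ℝ) • (z1 - z2) with hw
    have e1 : z1 = z + w := by rw [hz, hw]; module
    have e2 : z2 = z - w := by rw [hz, hw]; module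
    have h1 := hP z w
    have h2 : b x z - P z ≤ Q x := (hQ x).1 ⟨z, rfl⟩
    have h3 := hb h w
    have h4 : 2 * (‖h‖ * ‖w‖) - 2 * c * ‖w‖ ^ 2 ≤ ‖h‖ ^ 2 / (2 * c) := by
      rw [le_div_iff₀ (by positivity)]
      nlinarith [sq_nonneg (‖h‖ - 2 * c * ‖w‖)]
    rw [e1, e2, hb1, hb1', hb2, hb2, hb2', hb2']
    nlinarith
  have h1 : ∀ z2 : Y, Q (x + h) ≤ 2 * Q x + ‖h‖ ^ 2 / (2 * c) - (b (x - h) z2 - P z2) := by
    intro z2
    refine (hQ (x + h)).2 ?_
    rintro _ ⟨z1, rfl⟩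
    have := key z1 z2
    simp only
    linarith
  have h2 : Q (x - h) ≤ 2 * Q x + ‖h‖ ^ 2 / (2 * c) - Q (x + h) := by
    refine (hQ (x - h)).2 ?_
    rintro _ ⟨z2, rfl⟩
    have := h1 z2
    simp only
    linarith
  linarith

theorem isLUB_half_sq {E : Type} [NormedAddCommGroup E] [NormedSpace ℝ E] (f : StrongDual ℝ E) :
    IsLUB (Set.range fun z : E => f z - ‖z‖ ^ 2 / 2) (‖f‖ ^ 2 / 2) := by
  constructor
  · rintro _ ⟨z, rfl⟩
    have := (le_abs_self _).trans (f.le_opNorm z)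
    simp only
    nlinarith [sq_nonneg (‖f‖ - ‖z‖)]
  · intro B hB
    refine le_of_forall_pos_le_add fun ε hε => ?_
    rcases eq_or_lt_of_le (norm_nonneg f) with h0 | h0
    · have := hB ⟨0, rfl⟩
      simp at this
      rw [← h0]
      nlinarith
    · have h1 : ‖f‖ - ε / ‖f‖ < ‖f‖ := by
        have : 0 < ε / ‖f‖ := by positivity
        linarith
      obtain ⟨u, hu1, hu2⟩ : ∃ u : E, ‖u‖ < 1 ∧ ‖f‖ - ε / ‖f‖ < f u := by
        by_cases hneg : ‖f‖ - ε / ‖f‖ < 0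
        · exact ⟨0, by simp, by simpa using hneg⟩
        · push Not at hneg
          obtain ⟨u, hu1, hu2⟩ := ContinuousLinearMap.exists_lt_apply_of_lt_opNorm f h1
          rcases le_total 0 (f u) with hs | hs
          · exact ⟨u, hu1, by rwa [Real.norm_of_nonneg hs] at hu2⟩
          · refine ⟨-u, by rwa [norm_neg], ?_⟩
            rw [map_neg]
            rwa [Real.norm_of_nonpos hs] at hu2
      have h2 := hB ⟨‖f‖ • u, rfl⟩
      simp only [map_smul, smul_eq_mul, norm_smul, norm_norm] at h2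
      have h3 : ‖f‖ * (‖f‖ - ε / ‖f‖) ≤ ‖f‖ * f u := mul_le_mul_of_nonneg_left hu2.le h0.le
      have h4 : ‖f‖ * (‖f‖ - ε / ‖f‖) = ‖f‖ ^ 2 - ε := by field_simp
      have h5 : (‖f‖ * ‖u‖) ^ 2 ≤ ‖f‖ ^ 2 := by
        rw [mul_pow]
        have : ‖u‖ ^ 2 ≤ 1 := by nlinarith [norm_nonneg u]
        nlinarith [sq_nonneg ‖f‖]
      linarith

end Backward

end Pool.H305R3.Pinch
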