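import Pool.Agent.H305R3.Pinch.Form

/-!
# Second-order pinching at one point of a transitive norm
-/

set_option autoImplicit false
set_option linter.unusedVariables false

namespace Pool.H305R3.Pinch

/-- in every direction the lower second symmetric derivative of the squared norm at `x` is at most
`2 * M * |v| ^ 2` -/
def UpperAt (E : Type) [NormedAddCommGroup E] [NormedSpace ℝ E] (x : E) (M : ℝ) : Prop :=
  ∀ v : E, ∀ ε : ℝ, 0 < ε → ∀ δ : ℝ, 0 < δ → ∃ t : ℝ, 0 < t ∧ t < δ ∧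
    ‖x + t • v‖ ^ 2 + ‖x - t • v‖ ^ 2 - 2 * ‖x‖ ^ 2 ≤ (2 * M * ‖v‖ ^ 2 + ε) * t ^ 2

/-- in every direction the upper second symmetric derivative of the squared norm at `x` is at least
`2 * m * |v| ^ 2` -/
def LowerAt (E : Type) [NormedAddCommGroup E] [NormedSpace ℝ E] (x : E) (m : ℝ) : Prop :=
  ∀ v : E, ∀ ε : ℝ, 0 < ε → ∀ δ : ℝ, 0 < δ → ∃ t : ℝ, 0 < t ∧ t < δ ∧
    (2 * m * ‖v‖ ^ 2 - ε) * t ^ 2 ≤ ‖x + t • v‖ ^ 2 + ‖x - t • v‖ ^ 2 - 2 * ‖x‖ ^ 2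

/-- a continuous function with lower second symmetric derivative at most zero everywhere -/
theorem schwarz (φ : ℝ → ℝ) (hφ : Continuous φ)
    (h : ∀ a ε : ℝ, 0 < ε → ∀ δ : ℝ, 0 < δ → ∃ t : ℝ, 0 < t ∧ t < δ ∧
      φ (a + t) + φ (a - t) - 2 * φ a ≤ ε * t ^ 2) : φ 1 + φ (-1) ≤ 2 * φ 0 := by
  by_contra hcon
  push Not at hcon
  set d : ℝ := φ 1 + φ (-1) - 2 * φ 0 with hd
  have hd0 : 0 < d := by rw [hd]; linarith
  set ψ : ℝ → ℝ := fun t =>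
    φ t - ((φ 1 + φ (-1)) / 2 + t * ((φ 1 - φ (-1)) / 2)) + d / 4 * (1 - t ^ 2) with hψ
  have hψc : Continuous ψ := by
    rw [hψ]
    fun_prop
  obtain ⟨b, hb, hmin⟩ := (isCompact_Icc : IsCompact (Set.Icc (-1 : ℝ) 1)).exists_isMinOn
    ⟨0, by constructor <;> norm_num⟩ hψc.continuousOn
  have h0 : ψ 0 < 0 := by
    have : ψ 0 = - (d / 4) := by simp only [hψ, hd]; ring
    rw [this]; linarith
  have h1 : ψ 1 = 0 := by simp only [hψ]; ring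
  have h2 : ψ (-1) = 0 := by simp only [hψ]; ring
  have hmin' : ∀ t : ℝ, -1 ≤ t → t ≤ 1 → ψ b ≤ ψ t := fun t h1 h2 =>
    isMinOn_iff.1 hmin t (Set.mem_Icc.2 ⟨h1, h2⟩)
  have hb0 : ψ b < 0 := lt_of_le_of_lt (hmin' 0 (by norm_num) (by norm_num)) h0
  have hb1 : b ≠ 1 := by rintro rfl; linarith
  have hb2 : b ≠ -1 := by rintro rfl; linarith
  have hb3 : b < 1 := lt_of_le_of_ne hb.2 hb1
  have hb4 : -1 < b := lt_of_le_of_ne hb.1 (Ne.symm hb2)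
  obtain ⟨t, ht0, htδ, ht⟩ := h b (d / 4) (by linarith) (min (1 - b) (b + 1))
    (lt_min (by linarith) (by linarith))
  have ht1 : t < 1 - b := lt_of_lt_of_le htδ (min_le_left _ _)
  have ht2 : t < b + 1 := lt_of_lt_of_le htδ (min_le_right _ _)
  have e1 : ψ b ≤ ψ (b + t) := hmin' _ (by linarith) (by linarith)
  have e2 : ψ b ≤ ψ (b - t) := hmin' _ (by linarith) (by linarith)
  have e3 : ψ (b + t) + ψ (b - t) - 2 * ψ b =
      φ (b + t) + φ (b - t) - 2 * φ b - d / 2 * t ^ 2 := by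
    simp only [hψ]; ring
  have e4 : 0 < t ^ 2 := by positivity
  nlinarith

section Transfer

variable {E : Type} [NormedAddCommGroup E] [NormedSpace ℝ E]

theorem one_le_of_upper {x : E} (hx : ‖x‖ = 1) {M : ℝ} (h : UpperAt E x M) : 1 ≤ M := by
  refine le_of_forall_pos_le_add fun ε hε => ?_
  obtain ⟨t, ht0, ht1, ht⟩ := h x (2 * ε) (by linarith) 1 one_pos
  have e1 : x + t • x = (1 + t) • x := by rw [add_smul, one_smul]
  have e2 : x - t • x = (1 - t) • x := by rw [sub_smul, one_smul]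
  rw [e1, e2, norm_smul, norm_smul, hx, Real.norm_of_nonneg (by linarith : (0:ℝ) ≤ 1 + t),
    Real.norm_of_nonneg (by linarith : (0:ℝ) ≤ 1 - t)] at ht
  have e4 : 0 < t ^ 2 := by positivity
  have e5 : 2 * t ^ 2 ≤ (2 * M + 2 * ε) * t ^ 2 := by nlinarith
  have := le_of_mul_le_mul_right e5 e4
  linarith

theorem le_one_of_lower {x : E} (hx : ‖x‖ = 1) {m : ℝ} (h : LowerAt E x m) : m ≤ 1 := by
  refine le_of_forall_pos_le_add fun ε hε => ?_
  obtain ⟨t, ht0, ht1, ht⟩ := h x (2 * ε) (by linarith) 1 one_pos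
  have e1 : x + t • x = (1 + t) • x := by rw [add_smul, one_smul]
  have e2 : x - t • x = (1 - t) • x := by rw [sub_smul, one_smul]
  rw [e1, e2, norm_smul, norm_smul, hx, Real.norm_of_nonneg (by linarith : (0:ℝ) ≤ 1 + t),
    Real.norm_of_nonneg (by linarith : (0:ℝ) ≤ 1 - t)] at ht
  have e4 : 0 < t ^ 2 := by positivity
  have e5 : (2 * m - 2 * ε) * t ^ 2 ≤ 2 * t ^ 2 := by nlinarith
  have := le_of_mul_le_mul_right e5 e4
  linarith

/-- transfer of second differences along a transitive group -/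
theorem transfer (htr : ∀ x y : E, ‖x‖ = 1 → ‖y‖ = 1 → ∃ T : E ≃ₗᵢ[ℝ] E, T x = y)
    {x z : E} (hx : ‖x‖ = 1) (hz : z ≠ 0) (v : E) :
    ∃ w : E, ‖w‖ = ‖v‖ ∧ ∀ s : ℝ,
      ‖z + (‖z‖ * s) • v‖ ^ 2 + ‖z - (‖z‖ * s) • v‖ ^ 2 - 2 * ‖z‖ ^ 2 =
        ‖z‖ ^ 2 * (‖x + s • w‖ ^ 2 + ‖x - s • w‖ ^ 2 - 2 * ‖x‖ ^ 2) := by
  have hr : 0 < ‖z‖ := norm_pos_iff.2 hz
  obtain ⟨T, hT⟩ := htr x (‖z‖⁻¹ • z) hx (by
    rw [norm_smul, norm_inv, norm_norm, inv_mul_cancel₀ hr.ne'])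
  refine ⟨T.symm v, T.symm.norm_map v, fun s => ?_⟩
  have e0 : ‖z‖ • (‖z‖⁻¹ • z) = z := by
    rw [smul_smul, mul_inv_cancel₀ hr.ne', one_smul]
  have e1 : z + (‖z‖ * s) • v = ‖z‖ • T (x + s • T.symm v) := by
    rw [map_add, map_smul, hT, T.apply_symm_apply, smul_add, e0, smul_smul]
  have e2 : z - (‖z‖ * s) • v = ‖z‖ • T (x - s • T.symm v) := by
    rw [map_sub, map_smul, hT, T.apply_symm_apply, smul_sub, e0, smul_smul]
  rw [e1, e2, norm_smul, norm_smul, T.norm_map, T.norm_map, norm_norm, hx]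
  ring

theorem upper_all (htr : ∀ x y : E, ‖x‖ = 1 → ‖y‖ = 1 → ∃ T : E ≃ₗᵢ[ℝ] E, T x = y)
    {x : E} (hx : ‖x‖ = 1) {M : ℝ} (h : UpperAt E x M) (z : E) : UpperAt E z M := by
  intro v ε hε δ hδ
  by_cases hz : z = 0
  · refine ⟨δ / 2, by linarith, by linarith, ?_⟩
    have hM := one_le_of_upper hx h
    rw [hz, zero_add, zero_sub, norm_neg, norm_smul, norm_zero, Real.norm_of_nonneg (by linarith)]
    have h1 : 0 ≤ ‖v‖ ^ 2 * (δ / 2) ^ 2 := by positivity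
    have h2 : 0 ≤ ε * (δ / 2) ^ 2 := by positivity
    nlinarith
  · have hr : 0 < ‖z‖ := norm_pos_iff.2 hz
    obtain ⟨w, hw, hs⟩ := transfer htr hx hz v
    obtain ⟨s, hs0, hs1, hs2⟩ := h w ε hε (δ / ‖z‖) (by positivity)
    refine ⟨‖z‖ * s, by positivity, by rwa [lt_div_iff₀ hr, mul_comm] at hs1, ?_⟩
    rw [hs s, ← hw]
    have := mul_le_mul_of_nonneg_left hs2 (sq_nonneg ‖z‖)
    calc _ ≤ _ := this
      _ = _ := by ring

theorem lower_all (htr : ∀ x y : E, ‖x‖ = 1 → ‖y‖ = 1 → ∃ T : E ≃ₗᵢ[ℝ] E, T x = y)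
    {x : E} (hx : ‖x‖ = 1) {m : ℝ} (h : LowerAt E x m) (z : E) : LowerAt E z m := by
  intro v ε hε δ hδ
  by_cases hz : z = 0
  · refine ⟨δ / 2, by linarith, by linarith, ?_⟩
    have hM := le_one_of_lower hx h
    rw [hz, zero_add, zero_sub, norm_neg, norm_smul, norm_zero, Real.norm_of_nonneg (by linarith)]
    have h1 : 0 ≤ ‖v‖ ^ 2 * (δ / 2) ^ 2 := by positivity
    have h2 : 0 ≤ ε * (δ / 2) ^ 2 := by positivity
    nlinarith
  · have hr : 0 < ‖z‖ := norm_pos_iff.2 hz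
    obtain ⟨w, hw, hs⟩ := transfer htr hx hz v
    obtain ⟨s, hs0, hs1, hs2⟩ := h w ε hε (δ / ‖z‖) (by positivity)
    refine ⟨‖z‖ * s, by positivity, by rwa [lt_div_iff₀ hr, mul_comm] at hs1, ?_⟩
    rw [hs s, ← hw]
    have := mul_le_mul_of_nonneg_left hs2 (sq_nonneg ‖z‖)
    calc _ = _ := by ring
      _ ≤ _ := this

theorem upper_global {M : ℝ} (h : ∀ z : E, UpperAt E z M) (z v : E) :
    ‖z + v‖ ^ 2 + ‖z - v‖ ^ 2 - 2 * ‖z‖ ^ 2 ≤ 2 * M * ‖v‖ ^ 2 := by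
  have := schwarz (fun t => ‖z + t • v‖ ^ 2 - M * ‖v‖ ^ 2 * t ^ 2) (by fun_prop) (by
    intro a ε hε δ hδ
    obtain ⟨t, ht0, ht1, ht⟩ := h (z + a • v) v ε hε δ hδ
    refine ⟨t, ht0, ht1, ?_⟩
    have e1 : z + (a + t) • v = z + a • v + t • v := by rw [add_smul, add_assoc]
    have e2 : z + (a - t) • v = z + a • v - t • v := by rw [sub_smul, add_sub_assoc]
    rw [e1, e2]
    nlinarith)
  simp only [one_smul, neg_smul, zero_smul, add_zero] at this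
  rw [← sub_eq_add_neg] at this
  nlinarith

theorem lower_global {m : ℝ} (h : ∀ z : E, LowerAt E z m) (z v : E) :
    2 * m * ‖v‖ ^ 2 ≤ ‖z + v‖ ^ 2 + ‖z - v‖ ^ 2 - 2 * ‖z‖ ^ 2 := by
  have := schwarz (fun t => m * ‖v‖ ^ 2 * t ^ 2 - ‖z + t • v‖ ^ 2) (by fun_prop) (by
    intro a ε hε δ hδ
    obtain ⟨t, ht0, ht1, ht⟩ := h (z + a • v) v ε hε δ hδ
    refine ⟨t, ht0, ht1, ?_⟩
    have e1 : z + (a + t) • v = z + a • v + t • v := by rw [add_smul, add_assoc]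
    have e2 : z + (a - t) • v = z + a • v - t • v := by rw [sub_smul, add_sub_assoc]
    rw [e1, e2]
    nlinarith)
  simp only [one_smul, neg_smul, zero_smul, add_zero] at this
  rw [← sub_eq_add_neg] at this
  nlinarith

end Transfer

end Pool.H305R3.Pinch
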